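import Pool.Agent.K3h28.NR.Stm

/-! Brick SCHUR (project NR of helper28): a Schur product of the pencil and dilations. -/

set_option autoImplicit false

open Matrix
open scoped ComplexOrder

namespace Pool.Agent.K3h24.NR

open Pool.Agent.Helper774 Pool.Agent.K3h28.NR

theorem toMat {n m : ℕ} {A : Matrix (Fin n) (Fin n) ℂ} {T : Matrix (Fin m) (Fin m) ℂ}
    (h : FinDil A T) :
    ∃ (N : ℕ) (R : Fin N → Matrix (Fin n) (Fin m) ℂ), ∑ p, (R p)ᴴ * R p = 1 ∧
      ∑ p, (R p)ᴴ * A * R p = T := by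
  obtain ⟨N, R, h1, h2⟩ := h
  refine ⟨N, fun p => Matrix.of (R p), ?_, ?_⟩
  · ext a b
    rw [Matrix.sum_apply, Matrix.one_apply, ← h1 a b]
    apply Finset.sum_congr rfl
    intro p _
    rw [Matrix.mul_apply]
    rfl
  · ext a b
    rw [Matrix.sum_apply, ← h2 a b]
    apply Finset.sum_congr rfl
    intro p _
    rw [Matrix.mul_assoc, Matrix.mul_apply]
    apply Finset.sum_congr rfl
    intro i _
    rw [Matrix.mul_apply, Finset.mul_sum]
    apply Finset.sum_congr rfl
    intro j _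
    change starRingEnd ℂ (R p i a) * (A i j * R p j b) = _
    ring

theorem t_SCHUR : S_MWI → S_SCHUR := by
  intro hMWI n m A G B hn hD hG hpos
  obtain ⟨R, S, hRS, hSR, hGR⟩ := exists_factor G hG
  have hSR' : Sᴴ * Rᴴ = 1 := by
    rw [← Matrix.conjTranspose_mul, hRS, Matrix.conjTranspose_one]
  have hRS' : Rᴴ * Sᴴ = 1 := by
    rw [← Matrix.conjTranspose_mul, hSR, Matrix.conjTranspose_one]
  set T : Matrix (Fin m) (Fin m) ℂ := Sᴴ * B * S with hT
  have hpen : ∀ p : ℝ × ℂ, pen T p = Sᴴ * ((p.1 : ℂ) • G + p.2 • B + (p.2 • B)ᴴ) * S := by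
    intro p
    have h1 : Sᴴ * G * S = 1 := by
      rw [hGR]
      calc Sᴴ * (Rᴴ * R) * S = (Sᴴ * Rᴴ) * (R * S) := by simp only [Matrix.mul_assoc]
        _ = 1 := by rw [hSR', hRS, Matrix.one_mul]
    have h2 : (p.2 • T)ᴴ = Sᴴ * (p.2 • B)ᴴ * S := by
      rw [hT]
      simp only [Matrix.conjTranspose_smul, Matrix.conjTranspose_mul,
        Matrix.conjTranspose_conjTranspose, Matrix.mul_smul, Matrix.smul_mul, Matrix.mul_assoc]
    rw [pen, h2, Matrix.mul_add, Matrix.mul_add, Matrix.add_mul, Matrix.add_mul, ← h1, hT]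
    simp only [Matrix.mul_smul, Matrix.smul_mul]
  have hMW : MW T ⊆ MW A := by
    apply hMWI n m A T hn
    intro p hp
    rw [hpen]
    exact (hpos p hp).conjTranspose_mul_mul_same S
  obtain ⟨N, W, hW1, hW2⟩ := toMat (hD m T hMW)
  refine ⟨N, fun q => W q * R, ?_, ?_⟩
  · calc G = Rᴴ * (∑ q, (W q)ᴴ * W q) * R := by rw [hW1, Matrix.mul_one, hGR]
      _ = ∑ q, (W q * R)ᴴ * (W q * R) := by
        rw [Finset.mul_sum, Finset.sum_mul]
        apply Finset.sum_congr rfl
        intro q _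
        simp only [Matrix.conjTranspose_mul, Matrix.mul_assoc]
  · calc B = (Rᴴ * Sᴴ) * B * (S * R) := by rw [hRS', hSR, Matrix.one_mul, Matrix.mul_one]
      _ = Rᴴ * T * R := by rw [hT]; simp only [Matrix.mul_assoc]
      _ = Rᴴ * (∑ q, (W q)ᴴ * A * W q) * R := by rw [hW2]
      _ = ∑ q, (W q * R)ᴴ * A * (W q * R) := by
        rw [Finset.mul_sum, Finset.sum_mul]
        apply Finset.sum_congr rfl
        intro q _
        simp only [Matrix.conjTranspose_mul, Matrix.mul_assoc]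

end Pool.Agent.K3h24.NR
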